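import Pool.Agent.Y234.GS.StmC

set_option autoImplicit false

/-!
# Project GS, job BS: a hypersurface which is transversal at all closed points is smooth
-/

namespace Pool.Agent.Y517.GS

open Pool.Agent.Y234.GS KaehlerDifferential TensorProduct

/-- A linear form on the differentials of `B` with values in `C = B / f` taking the value one on the
differential of `f` shows that `C` is formally smooth. -/
theorem formallySmooth_of_form (K B C : Type) [CommRing K] [CommRing B] [Algebra K B]
    [Algebra.FormallySmooth K B] [CommRing C] [Algebra K C] [Algebra B C] [IsScalarTower K B C]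
    (hs : Function.Surjective (algebraMap B C)) (f : B)
    (hk : RingHom.ker (algebraMap B C) = Ideal.span {f}) (lam : Ω[B⁄K] →ₗ[B] C)
    (hl : lam (D K B f) = 1) : Algebra.FormallySmooth K C := by
  rw [Algebra.FormallySmooth.iff_split_injection hs]
  set I := RingHom.ker (algebraMap B C) with hI
  have hf : f ∈ I := by rw [hk]; exact Ideal.subset_span rfl
  have hf0 : algebraMap B C f = 0 := by
    have := hf
    rwa [hI, RingHom.mem_ker] at this
  -- the map `b ↦ b • [f]`
  let φ₀ : B →ₗ[B] I.Cotangent := LinearMap.toSpanSingleton B _ (I.toCotangent ⟨f, hf⟩)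
  have hφ₀ : LinearMap.ker (Algebra.linearMap B C) ≤ LinearMap.ker φ₀ := by
    intro b hb
    have hb' : b ∈ Ideal.span {f} := by
      rw [← hk, hI, RingHom.mem_ker]
      simpa using hb
    obtain ⟨a, rfl⟩ := Ideal.mem_span_singleton'.1 hb'
    rw [LinearMap.mem_ker, LinearMap.toSpanSingleton_apply, ← map_smul,
      Ideal.toCotangent_eq_zero]
    rw [pow_two]
    have : ((a * f) • (⟨f, hf⟩ : I) : I).1 = (a * f) * f := rfl
    rw [this]
    exact Ideal.mul_mem_mul (Ideal.mul_mem_left _ _ hf) hf
  have hsl : Function.Surjective (Algebra.linearMap B C) := hs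
  let e := (Algebra.linearMap B C).quotKerEquivOfSurjective hsl
  let φ : C →ₗ[B] I.Cotangent :=
    (LinearMap.ker (Algebra.linearMap B C)).liftQ φ₀ hφ₀ ∘ₗ e.symm.toLinearMap
  have hφ : ∀ b : B, φ (algebraMap B C b) = b • I.toCotangent ⟨f, hf⟩ := by
    intro b
    have h1 : e (Submodule.Quotient.mk b) = algebraMap B C b := rfl
    show (LinearMap.ker (Algebra.linearMap B C)).liftQ φ₀ hφ₀ (e.symm (algebraMap B C b)) = _
    rw [← h1, e.symm_apply_apply]
    rfl
  refine ⟨φ ∘ₗ TensorProduct.lift ((LinearMap.mul B C).compl₂ lam), ?_⟩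
  ext x
  obtain ⟨⟨x, hx⟩, rfl⟩ := Ideal.toCotangent_surjective _ x
  have hx' : x ∈ Ideal.span {f} := by rw [← hk]; exact hx
  obtain ⟨a, rfl⟩ := Ideal.mem_span_singleton'.1 hx'
  have h2 : lam (D K B (a * f)) = algebraMap B C a := by
    rw [Derivation.leibniz, map_add, map_smul, map_smul, hl, Algebra.smul_def, Algebra.smul_def,
      hf0, zero_mul, add_zero, mul_one]
  simp only [LinearMap.comp_apply, kerCotangentToTensor_toCotangent, TensorProduct.lift.tmul,
    LinearMap.compl₂_apply, LinearMap.mul_apply', one_mul, h2, hφ, LinearMap.id_coe, id_eq]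
  rw [← map_smul]
  rfl

theorem bs : S_BS := by
  intro K B _ _ _ _ _ f hf
  set C := B ⧸ Ideal.span {f} with hC
  have hs : Function.Surjective (algebraMap B C) := Ideal.Quotient.mk_surjective
  have hk : RingHom.ker (algebraMap B C) = Ideal.span {f} := Ideal.mk_ker
  -- the ideal of all values
  let ev : (Ω[B⁄K] →ₗ[B] C) →ₗ[C] C := LinearMap.applyₗ' C (D K B f)
  have htop : LinearMap.range ev = (⊤ : Submodule C C) := by
    by_contra hne
    obtain ⟨m, hm, hle⟩ := Ideal.exists_le_maximal (LinearMap.range ev : Ideal C) hne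
    letI : Field (C ⧸ m) := Ideal.Quotient.field m
    haveI : Algebra.FiniteType K (C ⧸ m) := inferInstance
    haveI : Module.Finite K (C ⧸ m) := finite_of_finite_type_of_isJacobsonRing K (C ⧸ m)
    have hbij : Function.Bijective (algebraMap K (C ⧸ m)) :=
      IsAlgClosed.algebraMap_bijective_of_isIntegral
    let e : K ≃ₐ[K] (C ⧸ m) := AlgEquiv.ofBijective (Algebra.ofId K (C ⧸ m)) hbij
    let q : B →ₐ[K] (C ⧸ m) := (Ideal.Quotient.mkₐ K m).comp (Ideal.Quotient.mkₐ K (Ideal.span {f}))
    let y : B →ₐ[K] K := e.symm.toAlgHom.comp q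
    have hy : ∀ b, e (y b) = q b := fun b => e.apply_symm_apply _
    have hqf : q f = 0 := by
      show Ideal.Quotient.mk m (Ideal.Quotient.mk (Ideal.span {f}) f) = 0
      rw [Ideal.Quotient.eq_zero_iff_mem.2 (Ideal.subset_span rfl : f ∈ Ideal.span {f}), map_zero]
    have hyf : y f = 0 := by
      apply e.injective
      rw [hy, hqf, map_zero]
    obtain ⟨δ, hδ, hδf⟩ := hf y hyf
    let d : Derivation K B (C ⧸ m) := Derivation.mk' (e.toLinearMap ∘ₗ δ) (by
      intro a b
      simp only [LinearMap.comp_apply, hδ]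
      have e1 : ∀ (a : B) (z : C ⧸ m), a • z = q a * z := fun a z => Algebra.smul_def a z
      show e (y a * δ b + y b * δ a) = a • e (δ b) + b • e (δ a)
      rw [map_add, map_mul, map_mul, hy, hy, e1, e1])
    have hdf : d f ≠ 0 := by
      intro h0
      apply hδf
      apply e.injective
      rw [map_zero]
      exact h0
    let π : C →ₗ[B] (C ⧸ m) := (Ideal.Quotient.mkₐ B m).toLinearMap
    have hπ : Function.Surjective π := Ideal.Quotient.mk_surjective
    obtain ⟨lam, hlam⟩ := Module.projective_lifting_property π d.liftKaehlerDifferential hπ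
    have h1 : lam (D K B f) ∈ m := hle ⟨lam, rfl⟩
    have h2 : π (lam (D K B f)) = d f := by
      rw [← LinearMap.comp_apply, hlam, Derivation.liftKaehlerDifferential_comp_D]
    apply hdf
    rw [← h2]
    exact Ideal.Quotient.eq_zero_iff_mem.2 h1
  obtain ⟨lam, hlam⟩ : (1 : C) ∈ LinearMap.range ev := by rw [htop]; trivial
  have h3 : Algebra.FormallySmooth K C := formallySmooth_of_form K B C hs f hk lam hlam
  have h4 : Algebra.FinitePresentation K C :=
    Algebra.FinitePresentation.quotient (Submodule.fg_span_singleton f)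
  exact { formallySmooth := h3, finitePresentation := h4 }

end Pool.Agent.Y517.GS
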